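import Pool.Agent.H71.GEN.Nst
import Pool.Agent.H71.GEN.Ft
import Pool.Agent.H45.EXA.Grw
import Pool.Agent.H45.EXA.Dwn

/-!
# The attained labels of the zoom

`gra_zf0`: if the coordinates `eps k` of a family have labels over the coordinates `eps i`,
`i < j ≤ k`, and the labels are functions of the side information `g`, then the zoom is in graphs
which are functions of its side information.
-/

set_option autoImplicit false

namespace Pool.GEN

open Finset Real MvPolynomial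
open Pool.Agent.H49.Ent Pool.Agent.H32.Dense Pool.STK Pool.KA Pool.KSAT Pool.K2S Pool.PB Pool.S6C
open Pool.FLF (Fam.sub)

variable {m n J : ℕ} {κ : Type}

theorem Gd.abs_sub_one {F : Fam m J} (hF : Gd F) (ω : F.Ω) (i : Fin m) : |F.x ω i - 1| ≤ 1 := by
  obtain ⟨⟨h1, h2⟩, h3, -, -⟩ := hF ω i
  have h4 := (abs_le.1 (F.dir ω i)).2
  have p0 : (0 : ℝ) < 2 ^ J := by positivity
  have h5 : 0 ≤ F.t ω ∧ F.t ω ≤ 1 := by
    unfold Fam.t
    refine ⟨by positivity, ?_⟩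
    rw [div_le_one p0]
    exact_mod_cast (F.tim ω).le
  have e1 : F.x ω i = F.u ω i + F.t ω * F.d ω i := rfl
  have h6 : 0 ≤ F.t ω * F.d ω i := mul_nonneg h5.1 h3
  have h7 : F.t ω * F.d ω i ≤ 1 * 1 := mul_le_mul h5.2 h4 h3 zero_le_one
  rw [e1, abs_le]
  constructor <;> linarith

/-- **Attained labels of the zoom.** -/
theorem gra_zf0 (m n K : ℕ) : ∃ c₀ : ℕ, ∀ (J W J' : ℕ) (h : W + J' ≤ J) (F : Fam m J) (κ : Type)
    (g : F.Ω → κ) (eps : Fin n → Fin m), Function.Injective eps → ∀ (e₀ : ℕ) (ρ P : Fin n → ℕ)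
    (V : Fin n → Fin n → Type) (z : ∀ j k, PtT F → V j k) (z' : ∀ j k, LnT F → V j k)
    (G : ∀ j k, V j k → MvPolynomial (Option (Fin m)) ℝ) (φ : ∀ j k, κ → V j k),
    (∀ j k, j ≤ k → LbOK F ((Finset.Iio j).image eps) (eps k) K e₀ J W (ρ j) (P j)
      (fun ω => 0 < F.p ω) (z j k) (z' j k) (G j k)) →
    (∀ j k, j ≤ k → ∀ ω, 0 < F.p ω → z' j k (slam F W ω) = φ j k (g ω)) →
    ∀ (e : ℝ) (s u : Fin n → ℝ), 3 ≤ W → (∀ j : Fin n, (j : ℕ) = 0 → s j = 0) →
    (∀ j, u j ≤ 1) →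
    (∀ j, s j = 0 ∨ (⌊s j * J'⌋₊ + W + c₀ ≤ P j ∧ ⌊s j * J'⌋₊ + e₀ + c₀ ≤ J' ∧
      ρ j ≤ W + ⌊rad u 0 j * J'⌋₊)) →
    e₀ + c₀ ≤ ⌊e * J'⌋₊ → Gra (K + 1) e s u J' (zf F W J' h g eps) := by
  classical
  obtain ⟨c, hgrow⟩ := lb_grow' K 3
  have hm0 : (0 : ℝ) ≤ m := Nat.cast_nonneg m
  obtain ⟨c₁, hc₁⟩ := pow_unbounded_of_one_lt (4 * (m : ℝ) + 9) (one_lt_two : (1 : ℝ) < 2)
  refine ⟨c + c₁, ?_⟩
  intro J W J' h F κ g eps hinj e₀ ρ P V z z' G φ hL hφ e s u hW hs0 hu1 hn he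
  obtain ⟨G', hG'⟩ : ∃ G' : ZzT m κ F.ζ → Fin n → Fin n → MvPolynomial (Option (Fin n)) ℝ,
      G' = fun v j k => if s j = 0 then C 1 else
        dq W (v.1.1.1 : ℝ) (fun i => (v.1.2.1 i : ℝ)) (fun i => (v.1.2.2 i : ℝ)) eps (eps k)
          (G j k (φ j k v.1.1.2)) := ⟨_, rfl⟩
  by_cases hne : ∃ ω, 0 < F.p ω
  swap
  · refine ⟨fun _ _ _ => C 1, fun _ _ _ => ⟨?_, fun b b' _ _ => ?_⟩, fun ω hω => ?_⟩
    · rw [totalDegree_C]
      exact Nat.zero_le _
    · rw [eval_C, eval_C]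
    · exact absurd ⟨ω, hω⟩ hne
  refine ⟨fun v j k => if j ≤ k then G' v j k else C 1, ?_, ?_⟩
  · intro v j k
    have hC : (C 1 : MvPolynomial (Option (Fin n)) ℝ).totalDegree ≤ K + 1 ∧
        DepOn (Finset.Iio j) (C 1 : MvPolynomial (Option (Fin n)) ℝ) := by
      refine ⟨?_, fun b b' _ _ => ?_⟩
      · rw [totalDegree_C]
        exact Nat.zero_le _
      · rw [eval_C, eval_C]
    by_cases hjk : j ≤ k
    · simp only [if_pos hjk]
      rw [hG']
      simp only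
      split_ifs with hs
      · exact hC
      · refine ⟨deg_dq ((hL j k hjk).deg _), fun b b' h0 h1 => ?_⟩
        rw [eval_dq, eval_dq, h0]
        congr 3
        refine (hL j k hjk).dep _ _ _ ?_ fun i hi => ?_
        · rw [eval_ds_none, eval_ds_none, h0]
        · obtain ⟨i', hi', rfl⟩ := Finset.mem_image.1 hi
          rw [eval_ds_e hinj, eval_ds_e hinj, h0, h1 i' hi']
    · simp only [if_neg hjk]
      exact hC
  · intro ω hω j k hjk
    have hωF : 0 < F.p ω := hω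
    simp only [if_pos hjk]
    have hZ : G' ((zf F W J' h g eps).Z ω) j k = if s j = 0 then C 1 else
        dq W (F.T1 W ω : ℝ) (fun i => (cl F W ω i : ℝ)) (fun i => (vl F ω i : ℝ)) eps (eps k)
          (G j k (z' j k (slam F W ω))) := by
      rw [hφ j k hjk ω hωF, hG']
      rfl
    rw [hZ]
    by_cases hs : s j = 0
    · rw [if_pos hs]
      refine ⟨?_, fun b _ o => ?_⟩
      · rw [eval_C, hs, zero_mul, Nat.floor_zero, pow_zero, div_one]
        exact (zf_Gd F h g eps).abs_sub_one ω k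
      · rw [pderiv_C, map_zero, abs_zero]
        positivity
    · rw [if_neg hs]
      rcases hn j with h1 | ⟨h1, h2, h3⟩
      · exact absurd h1 hs
      have hj0 : (j : ℕ) ≠ 0 := fun hj => hs (hs0 j hj)
      have hrad : ⌊rad u 0 j * J'⌋₊ ≤ J' := by
        have e1 : rad u 0 j ≤ 1 := by
          unfold rad
          rw [if_neg hj0]
          exact hu1 _
        have e2 : rad u 0 j * (J' : ℝ) ≤ J' := by
          have : (0 : ℝ) ≤ J' := Nat.cast_nonneg J'
          nlinarith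
        exact (Nat.floor_le_floor e2).trans (le_of_eq (Nat.floor_natCast J'))
      have hLg := hgrow m J F _ _ _ _ _ _ _ _ _ _ _ _ (hL j k hjk)
      have hcomp := dwn_pos (F := F) (n := n) (w := W) (J' := J') (ρ := ρ j - 3)
        (ρ' := ⌊rad u 0 j * J'⌋₊) (P := P j) (P₁ := ⌊s j * J'⌋₊ + c₁) (e₀ := e₀ + c) (c₀ := c₁)
        hc₁.le (by omega) (by omega) (by omega) (by omega) (e := eps) hinj (i := k)
        (I' := Finset.Iio j) (G := G j k (z' j k (slam F W ω))) (zb := bt (zf F W J' h g eps) ω)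
        (ω := ω) (fun i => zf_x F h g eps ω i) (by
          have h1 := zf_t F h g eps ω
          have e1 : bt (zf F W J' h g eps) ω none = (zf F W J' h g eps).t ω := rfl
          rw [e1, abs_le]
          have : (0 : ℝ) ≤ 1 / 2 ^ J' := by positivity
          constructor <;> linarith [h1.1, h1.2]) (hLg.pos ω hωF) (hLg.dep _) (hLg.lip ω hωF)
      refine ⟨?_, fun b hb o => ?_⟩
      · have h4 := hcomp.2
        have e1 : bt (zf F W J' h g eps) ω (some k) = (zf F W J' h g eps).x ω k := rfl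
        rw [e1] at h4
        refine h4.trans ?_
        rw [pow_add, div_le_div_iff₀ (by positivity) (by positivity), one_mul]
        have : (0 : ℝ) < 2 ^ ⌊s j * J'⌋₊ := by positivity
        rw [mul_comm]
        exact mul_le_mul_of_nonneg_left hc₁.le this.le
      · refine (hcomp.1 b hb o).trans (pow_le_pow_right₀ one_le_two ?_)
        omega

theorem bef_eq (σ : Equiv.Perm (Fin m)) (j : Fin m) : bef σ j = (Finset.Iio j).image σ := by
  unfold bef
  congr 1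
  ext l
  simp

/-- **Attained labels of the zoom**, for a family restricted to an event, with all labels in the
side information. -/
theorem gra_zf (m n K : ℕ) : ∃ c₀ : ℕ, ∀ (J W J' : ℕ) (h : W + J' ≤ J) (F : Fam m J)
    (A : F.Ω → Prop) (hl : IsLaw (Pool.Agent.H49.Ent.cond F.p A True))
    (eps : Fin n → Fin m), Function.Injective eps → ∀ (e₀ : ℕ) (ρ P : Fin n → ℕ)
    (V : Fin n → Fin n → Type) (z : ∀ j k, PtT F → V j k) (z' : ∀ j k, LnT F → V j k)
    (G : ∀ j k, V j k → MvPolynomial (Option (Fin m)) ℝ),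
    (∀ j k, j ≤ k → LbOK F ((Finset.Iio j).image eps) (eps k) K e₀ J W (ρ j) (P j) A
      (z j k) (z' j k) (G j k)) →
    ∀ (e : ℝ) (s u : Fin n → ℝ), 3 ≤ W → (∀ j : Fin n, (j : ℕ) = 0 → s j = 0) →
    (∀ j, u j ≤ 1) →
    (∀ j, s j = 0 ∨ (⌊s j * J'⌋₊ + W + c₀ ≤ P j ∧ ⌊s j * J'⌋₊ + e₀ + c₀ ≤ J' ∧
      ρ j ≤ W + ⌊rad u 0 j * J'⌋₊)) →
    e₀ + c₀ ≤ ⌊e * J'⌋₊ →
    ∀ (κ : Type) (g : F.Ω → κ) (φ : ∀ j k, κ → V j k),
      (∀ j k, j ≤ k → ∀ ω, A ω → z' j k (slam F W ω) = φ j k (g ω)) →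
      Gra (K + 1) e s u J' (zf (F.res A True hl) W J' h g eps) := by
  obtain ⟨c₀, hc⟩ := gra_zf0 m n K
  refine ⟨c₀, ?_⟩
  intro J W J' h F A hl eps hinj e₀ ρ P V z z' G hL e s u hW hs0 hu1 hn he κ g φ hφ
  have hA : ∀ ω, 0 < (F.res A True hl).p ω → A ω := by
    intro ω hω
    by_contra hc
    have h1 : (F.res A True hl).p ω = Pool.Agent.H49.Ent.cond F.p A True ω := rfl
    rw [h1] at hω
    unfold Pool.Agent.H49.Ent.cond at hω
    rw [if_neg (fun h => hc (by rw [h]; trivial))] at hω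
    exact lt_irrefl _ hω
  refine hc J W J' h (F.res A True hl) κ g eps hinj e₀ ρ P V z z' G φ (fun j k hjk => ?_)
    (fun j k hjk ω hω => hφ j k hjk ω (hA ω hω)) e s u hW hs0 hu1 hn he
  have h0 := hL j k hjk
  have h1 := LbOK.sub (F := F) (B := fun ω : F.Ω => 0 < (F.res A True hl).p ω) h0 hA
  exact ⟨h1.deg, h1.dep, h1.cls, h1.pos, h1.vel, h1.lip⟩

end Pool.GEN
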