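import Pool.Agent.H33.EXA.Gra
import Pool.Agent.H1.GEN.Fx

/-!
# The attained labels of the zoom, with exact numbers
-/

set_option autoImplicit false

namespace Pool.GEN

open Finset Real MvPolynomial
open Pool.Agent.H49.Ent Pool.Agent.H32.Dense Pool.STK Pool.KA Pool.KSAT Pool.K2S Pool.PB Pool.S6C
open Pool.FLF (Fam.sub)

variable {m n J : ℕ} {κ : Type}

/-- **Attained labels of the zoom**, with arbitrary exponents: precision `p j`, radius `r j`,
slopes `E`. -/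
theorem gra_core (m n K : ℕ) : ∃ c₀ : ℕ, ∀ (J W J' : ℕ) (h : W + J' ≤ J) (F : Fam m J) (κ : Type)
    (g : F.Ω → κ) (eps : Fin n → Fin m), Function.Injective eps → ∀ (e₀ : ℕ) (ρ P : Fin n → ℕ)
    (V : Fin n → Fin n → Type) (z : ∀ j k, PtT F → V j k) (z' : ∀ j k, LnT F → V j k)
    (G : ∀ j k, V j k → MvPolynomial (Option (Fin m)) ℝ) (φ : ∀ j k, κ → V j k),
    (∀ j k, j ≤ k → LbOK F ((Finset.Iio j).image eps) (eps k) K e₀ J W (ρ j) (P j)
      (fun ω => 0 < F.p ω) (z j k) (z' j k) (G j k)) →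
    (∀ j k, j ≤ k → ∀ ω, 0 < F.p ω → z' j k (slam F W ω) = φ j k (g ω)) →
    ∀ (p r : Fin n → ℕ) (E : ℕ), 3 ≤ W →
    (∀ j, p j = 0 ∨ (p j + W + c₀ ≤ P j ∧ p j + e₀ + c₀ ≤ J' ∧ ρ j ≤ W + r j ∧
      ρ j ≤ W + J')) →
    e₀ + c₀ ≤ E →
    ∃ G' : (zf F W J' h g eps).ζ → Fin n → Fin n → MvPolynomial (Option (Fin n)) ℝ,
      (∀ v j k, (G' v j k).totalDegree ≤ K + 1 ∧ DepOn (Finset.Iio j) (G' v j k)) ∧
      ∀ ω, 0 < (zf F W J' h g eps).p ω → ∀ j k, j ≤ k →
        |(zf F W J' h g eps).x ω k -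
          eval (bt (zf F W J' h g eps) ω) (G' ((zf F W J' h g eps).Z ω) j k)| ≤ 1 / 2 ^ p j ∧
        ∀ b : Option (Fin n) → ℝ, (∀ o, |b o - bt (zf F W J' h g eps) ω o| ≤ 1 / 2 ^ r j) →
          ∀ o, |eval b (pderiv o (G' ((zf F W J' h g eps).Z ω) j k))| ≤ 2 ^ E := by
  classical
  obtain ⟨c, hgrow⟩ := lb_grow' K 3
  have hm0 : (0 : ℝ) ≤ m := Nat.cast_nonneg m
  obtain ⟨c₁, hc₁⟩ := pow_unbounded_of_one_lt (4 * (m : ℝ) + 9) (one_lt_two : (1 : ℝ) < 2)
  refine ⟨c + c₁, ?_⟩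
  intro J W J' h F κ g eps hinj e₀ ρ P V z z' G φ hL hφ p r E hW hn he
  obtain ⟨G', hG'⟩ : ∃ G' : ZzT m κ F.ζ → Fin n → Fin n → MvPolynomial (Option (Fin n)) ℝ,
      G' = fun v j k => if p j = 0 then C 1 else
        dq W (v.1.1.1 : ℝ) (fun i => (v.1.2.1 i : ℝ)) (fun i => (v.1.2.2 i : ℝ)) eps (eps k)
          (G j k (φ j k v.1.1.2)) := ⟨_, rfl⟩
  have hC : ∀ j : Fin n, (C 1 : MvPolynomial (Option (Fin n)) ℝ).totalDegree ≤ K + 1 ∧
      DepOn (Finset.Iio j) (C 1 : MvPolynomial (Option (Fin n)) ℝ) := by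
    intro j
    refine ⟨?_, fun b b' _ _ => ?_⟩
    · rw [totalDegree_C]
      exact Nat.zero_le _
    · rw [eval_C, eval_C]
  by_cases hne : ∃ ω, 0 < F.p ω
  swap
  · exact ⟨fun _ _ _ => C 1, fun _ j _ => hC j, fun ω hω => absurd ⟨ω, hω⟩ hne⟩
  refine ⟨fun v j k => if j ≤ k then G' v j k else C 1, ?_, ?_⟩
  · intro v j k
    by_cases hjk : j ≤ k
    · simp only [if_pos hjk]
      rw [hG']
      simp only
      split_ifs with hs
      · exact hC j
      · refine ⟨deg_dq ((hL j k hjk).deg _), fun b b' h0 h1 => ?_⟩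
        rw [eval_dq, eval_dq, h0]
        congr 3
        refine (hL j k hjk).dep _ _ _ ?_ fun i hi => ?_
        · rw [eval_ds_none, eval_ds_none, h0]
        · obtain ⟨i', hi', rfl⟩ := Finset.mem_image.1 hi
          rw [eval_ds_e hinj, eval_ds_e hinj, h0, h1 i' hi']
    · simp only [if_neg hjk]
      exact hC j
  · intro ω hω j k hjk
    have hωF : 0 < F.p ω := hω
    simp only [if_pos hjk]
    have hZ : G' ((zf F W J' h g eps).Z ω) j k = if p j = 0 then C 1 else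
        dq W (F.T1 W ω : ℝ) (fun i => (cl F W ω i : ℝ)) (fun i => (vl F ω i : ℝ)) eps (eps k)
          (G j k (z' j k (slam F W ω))) := by
      rw [hφ j k hjk ω hωF, hG']
      rfl
    rw [hZ]
    by_cases hs : p j = 0
    · rw [if_pos hs]
      refine ⟨?_, fun b _ o => ?_⟩
      · rw [eval_C, hs, pow_zero, div_one]
        exact (zf_Gd F h g eps).abs_sub_one ω k
      · rw [pderiv_C, map_zero, abs_zero]
        positivity
    · rw [if_neg hs]
      rcases hn j with h1 | ⟨h1, h2, h3, h3'⟩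
      · exact absurd h1 hs
      have hLg := hgrow m J F _ _ _ _ _ _ _ _ _ _ _ _ (hL j k hjk)
      have hcomp := dwn_pos (F := F) (n := n) (w := W) (J' := J') (ρ := ρ j - 3)
        (ρ' := r j) (P := P j) (P₁ := p j + c₁) (e₀ := e₀ + c) (c₀ := c₁)
        hc₁.le (by omega) (by omega) (by omega) (by omega) (e := eps) hinj (i := k)
        (I' := Finset.Iio j) (G := G j k (z' j k (slam F W ω))) (zb := bt (zf F W J' h g eps) ω)
        (ω := ω) (fun i => zf_x F h g eps ω i) (by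
          have h1 := zf_t F h g eps ω
          have e1 : bt (zf F W J' h g eps) ω none = (zf F W J' h g eps).t ω := rfl
          rw [e1, abs_le]
          have : (0 : ℝ) ≤ 1 / 2 ^ J' := by positivity
          constructor <;> linarith [h1.1, h1.2]) (hLg.pos ω hωF) (hLg.dep _) (hLg.lip ω hωF)
      refine ⟨?_, fun b hb o => ?_⟩
      · have h4 := hcomp.2
        have e1 : bt (zf F W J' h g eps) ω (some k) = (zf F W J' h g eps).x ω k := rfl
        rw [e1] at h4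
        refine h4.trans ?_
        rw [pow_add, div_le_div_iff₀ (by positivity) (by positivity), one_mul]
        have : (0 : ℝ) < 2 ^ p j := by positivity
        rw [mul_comm]
        exact mul_le_mul_of_nonneg_left hc₁.le this.le
      · refine (hcomp.1 b hb o).trans (pow_le_pow_right₀ one_le_two ?_)
        omega

theorem rad_mem {s : Fin n → ℝ} (h0 : ∀ j, 0 ≤ s j) (h1 : ∀ j, s j ≤ 1) (j : Fin n) :
    0 ≤ rad s 0 j ∧ rad s 0 j ≤ 1 := by
  unfold rad
  split_ifs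
  · exact ⟨le_rfl, zero_le_one⟩
  · exact ⟨h0 _, h1 _⟩

/-- **Attained labels of the zoom, exact numbers.** -/
theorem grax_zf0 (m n K : ℕ) : ∃ c₀ : ℕ, ∀ (J W J' : ℕ) (h : W + J' = J) (F : Fam m J) (κ : Type)
    (g : F.Ω → κ) (eps : Fin n → Fin m), Function.Injective eps → ∀ (s : Fin n → ℝ),
    (∀ j, 0 ≤ s j) → (∀ j, s j ≤ 1) → ∀ e e₁ : ℝ, 0 ≤ e₁ →
    ∀ (V : Fin n → Fin n → Type) (z : ∀ j k, PtT F → V j k) (z' : ∀ j k, LnT F → V j k)
    (G : ∀ j k, V j k → MvPolynomial (Option (Fin m)) ℝ) (φ : ∀ j k, κ → V j k),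
    (∀ j k, j ≤ k → LbOK F ((Finset.Iio j).image eps) (eps k) K ⌊e₁ * J⌋₊ J W
      ⌊min (rad s 0 j + e₁) 1 * J⌋₊ ⌊(s j - e₁) * J⌋₊
      (fun ω => 0 < F.p ω) (z j k) (z' j k) (G j k)) →
    (∀ j k, j ≤ k → ∀ ω, 0 < F.p ω → z' j k (slam F W ω) = φ j k (g ω)) →
    3 ≤ W → (W : ℝ) + e₁ * J + c₀ ≤ e * J' →
    GraX (K + 1) e s J' (zf F W J' h.le g eps) := by
  obtain ⟨c₀, hc⟩ := gra_core m n K
  refine ⟨c₀ + 2, ?_⟩
  intro J W J' h F κ g eps hinj s h0 h1 e e₁ he₁ V z z' G φ hL hφ hW hnum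
  have hJR : (J : ℝ) = W + J' := by exact_mod_cast h.symm
  have hW0 : (0 : ℝ) ≤ W := Nat.cast_nonneg W
  have hJ'0 : (0 : ℝ) ≤ J' := Nat.cast_nonneg J'
  have hJ0 : (0 : ℝ) ≤ J := Nat.cast_nonneg J
  have hc0 : (0 : ℝ) ≤ c₀ := Nat.cast_nonneg c₀
  have he1J : 0 ≤ e₁ * J := mul_nonneg he₁ hJ0
  push_cast at hnum
  have hE : ⌊e₁ * (J : ℝ)⌋₊ + c₀ ≤ ⌊e * (J' : ℝ)⌋₊ := by
    refine Nat.le_floor ?_
    push_cast
    have := Nat.floor_le he1J
    linarith
  obtain ⟨G', hG1, hG2⟩ := hc J W J' h.le F κ g eps hinj ⌊e₁ * J⌋₊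
    (fun j => ⌊min (rad s 0 j + e₁) 1 * J⌋₊) (fun j => ⌊(s j - e₁) * J⌋₊) V z z' G φ hL hφ
    (fun j => ⌊(s j - e) * J'⌋₊) (fun j => ⌊min (rad s 0 j + e) 1 * J'⌋₊) ⌊e * J'⌋₊ hW
    (fun j => by
      by_cases hs : (s j - e) * (J' : ℝ) ≤ 0
      · left
        exact Nat.floor_of_nonpos hs
      · right
        push Not at hs
        have hfl := Nat.floor_le hs.le
        have hsW : s j * (W : ℝ) ≤ W := by nlinarith [h1 j]
        have hsW0 : 0 ≤ s j * (W : ℝ) := mul_nonneg (h0 j) hW0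
        have hsJ : s j * (J' : ℝ) ≤ J' := by nlinarith [h1 j]
        have e1 : (s j - e₁) * (J : ℝ) = s j * W + s j * J' - e₁ * J := by
          rw [hJR]
          ring
        have e2 : (s j - e) * (J' : ℝ) = s j * J' - e * J' := by ring
        have hfl2 := hfl.trans (le_of_eq e2)
        obtain ⟨r0, r1⟩ := rad_mem h0 h1 j
        refine ⟨?_, ?_, ?_, ?_⟩
        · refine Nat.le_floor ?_
          push_cast
          rw [e1]
          linarith
        · have h3 := Nat.floor_le he1J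
          have h4 : ((⌊(s j - e) * (J' : ℝ)⌋₊ + ⌊e₁ * (J : ℝ)⌋₊ + c₀ : ℕ) : ℝ) ≤ J' := by
            push_cast
            linarith
          exact_mod_cast h4
        · by_cases hr : 1 ≤ rad s 0 j + e
          · rw [min_eq_right hr, one_mul, Nat.floor_natCast]
            have h5 : min (rad s 0 j + e₁) 1 * (J : ℝ) ≤ J := by
              have := min_le_right (rad s 0 j + e₁) 1
              nlinarith
            refine (Nat.floor_le_floor h5).trans ?_
            rw [Nat.floor_natCast, ← h]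
          · push Not at hr
            rw [min_eq_left hr.le]
            have h5 : min (rad s 0 j + e₁) 1 * (J : ℝ) ≤ (rad s 0 j + e₁) * J :=
              mul_le_mul_of_nonneg_right (min_le_left _ _) hJ0
            have h6 : (rad s 0 j + e₁) * (J : ℝ) ≤ W + ((rad s 0 j + e) * J' - 1) := by
              have e3 : (rad s 0 j + e₁) * (J : ℝ) = rad s 0 j * W + rad s 0 j * J' + e₁ * J := by
                rw [hJR]
                ring
              have h7 : rad s 0 j * (W : ℝ) ≤ W := by nlinarith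
              rw [e3]
              nlinarith
            have h8 := Nat.lt_floor_add_one ((rad s 0 j + e) * (J' : ℝ))
            have h9 : 0 ≤ min (rad s 0 j + e₁) 1 * (J : ℝ) :=
              mul_nonneg (le_min (by linarith) zero_le_one) hJ0
            have h10 := Nat.floor_le h9
            have h11 : ((⌊min (rad s 0 j + e₁) 1 * (J : ℝ)⌋₊ : ℕ) : ℝ) ≤
                ((W + ⌊(rad s 0 j + e) * (J' : ℝ)⌋₊ : ℕ) : ℝ) := by
              push_cast
              linarith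
            exact_mod_cast h11
        · have h5 : min (rad s 0 j + e₁) 1 * (J : ℝ) ≤ J := by
            have := min_le_right (rad s 0 j + e₁) 1
            nlinarith
          refine (Nat.floor_le_floor h5).trans ?_
          rw [Nat.floor_natCast, ← h]) hE
  exact ⟨G', hG1, hG2⟩

/-- **Attained labels of the zoom, exact numbers**, for a family restricted to an event. -/
theorem grax_zf (m n K : ℕ) : ∃ c₀ : ℕ, ∀ (J W J' : ℕ) (h : W + J' = J) (F : Fam m J)
    (A : F.Ω → Prop) (hl : IsLaw (Pool.Agent.H49.Ent.cond F.p A True))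
    (eps : Fin n → Fin m), Function.Injective eps → ∀ (s : Fin n → ℝ),
    (∀ j, 0 ≤ s j) → (∀ j, s j ≤ 1) → ∀ e e₁ : ℝ, 0 ≤ e₁ →
    ∀ (V : Fin n → Fin n → Type) (z : ∀ j k, PtT F → V j k) (z' : ∀ j k, LnT F → V j k)
    (G : ∀ j k, V j k → MvPolynomial (Option (Fin m)) ℝ),
    (∀ j k, j ≤ k → LbOK F ((Finset.Iio j).image eps) (eps k) K ⌊e₁ * J⌋₊ J W
      ⌊min (rad s 0 j + e₁) 1 * J⌋₊ ⌊(s j - e₁) * J⌋₊ A (z j k) (z' j k) (G j k)) →
    3 ≤ W → (W : ℝ) + e₁ * J + c₀ ≤ e * J' →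
    ∀ (κ : Type) (g : F.Ω → κ) (φ : ∀ j k, κ → V j k),
      (∀ j k, j ≤ k → ∀ ω, A ω → z' j k (slam F W ω) = φ j k (g ω)) →
      GraX (K + 1) e s J' (zf (F.res A True hl) W J' h.le g eps) := by
  obtain ⟨c₀, hc⟩ := grax_zf0 m n K
  refine ⟨c₀, ?_⟩
  intro J W J' h F A hl eps hinj s h0 h1 e e₁ he₁ V z z' G hL hW hnum κ g φ hφ
  have hA : ∀ ω, 0 < (F.res A True hl).p ω → A ω := by
    intro ω hω
    by_contra hc
    have h1 : (F.res A True hl).p ω = Pool.Agent.H49.Ent.cond F.p A True ω := rfl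
    rw [h1] at hω
    unfold Pool.Agent.H49.Ent.cond at hω
    rw [if_neg (fun h => hc (by rw [h]; trivial))] at hω
    exact lt_irrefl _ hω
  refine hc J W J' h (F.res A True hl) κ g eps hinj s h0 h1 e e₁ he₁ V z z' G φ
    (fun j k hjk => ?_) (fun j k hjk ω hω => hφ j k hjk ω (hA ω hω)) hW hnum
  have h2 := hL j k hjk
  have h3 := LbOK.sub (F := F) (B := fun ω : F.Ω => 0 < (F.res A True hl).p ω) h2 hA
  exact ⟨h3.deg, h3.dep, h3.cls, h3.pos, h3.vel, h3.lip⟩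

/-- The numerical condition of `grax_zf`. -/
theorem grax_num {c₀ : ℕ} {e e₁ w₁ : ℝ} (he1 : e ≤ 1) (h1 : e₁ ≤ e / 8)
    (hw : w₁ ≤ e / 8) {J W J' : ℕ} (h : W + J' = J) (hW : W = ⌊w₁ * J⌋₊) (hw0 : 0 < w₁)
    (hJ : 2 * (c₀ : ℝ) + 8 ≤ e * J) (hJ4 : 4 ≤ w₁ * J) :
    3 ≤ W ∧ (W : ℝ) + e₁ * J + c₀ ≤ e * J' := by
  have hJ0 : (0 : ℝ) ≤ J := Nat.cast_nonneg J
  have hWf : (W : ℝ) ≤ w₁ * J := by
    rw [hW]
    exact Nat.floor_le (by positivity)
  have hJR : (J : ℝ) = W + J' := by exact_mod_cast h.symm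
  refine ⟨?_, ?_⟩
  · rw [hW]
    refine Nat.le_floor ?_
    push_cast
    linarith
  · have h2 : w₁ * (J : ℝ) ≤ e / 8 * J := mul_le_mul_of_nonneg_right hw hJ0
    have h3 : e₁ * (J : ℝ) ≤ e / 8 * J := mul_le_mul_of_nonneg_right h1 hJ0
    have h4 : e * (W : ℝ) ≤ W := by
      have : (0 : ℝ) ≤ W := Nat.cast_nonneg W
      nlinarith
    have h5 : e * (J' : ℝ) = e * J - e * W := by
      rw [hJR]
      ring
    rw [h5]
    have h6 : e / 8 * (J : ℝ) = e * J / 8 := by ring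
    rw [h6] at h2 h3
    linarith

end Pool.GEN
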