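import Pool.Agent.H45.EXA.Dwn

/-!
# A finite list of labels of the family is a list of fixed graphs in the zoom
-/

set_option autoImplicit false

namespace Pool.GEN

open Finset Real MvPolynomial
open Pool.Agent.H49.Ent Pool.Agent.H32.Dense Pool.STK Pool.KA Pool.KSAT Pool.K2S Pool.PB Pool.S6C
open Pool.FLF (Fam.sub)

variable {m n J : ℕ} {κ : Type}

/-- **The chain goes down**: a finite list of labels, on one event. -/
theorem chain_dwn (m n K : ℕ) : ∃ (C : ℝ) (c₀ : ℕ), 1 ≤ C ∧ ∀ (J : ℕ) (F : Fam m J) (w J' : ℕ)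
    (h : w + J' ≤ J) (κ : Type) (g : F.Ω → κ) (e : Fin n → Fin m), Function.Injective e →
    ∀ (ι : Type) (s : Finset ι) (I : ι → Finset (Fin n)) (i : ι → Fin n)
    (e₀ ρ ρ' P P₁ : ι → ℕ) (V : ι → Type) (z : ∀ a, PtT F → V a) (z' : ∀ a, LnT F → V a)
    (G : ∀ a, V a → MvPolynomial (Option (Fin m)) ℝ) (φ : ∀ a, κ → V a) (B : F.Ω → Prop),
    (∀ a ∈ s, LbOK F ((I a).image e) (e (i a)) K (e₀ a) J w (ρ a) (P a) B (z a) (z' a) (G a)) →
    (∀ a ∈ s, ∀ ω, B ω → z' a (slam F w ω) = φ a (g ω)) →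
    (∀ a ∈ s, ρ a + 2 ≤ w + ρ' a ∧ ρ a + 3 ≤ w + J' ∧ w + P₁ a ≤ P a ∧ P₁ a + e₀ a ≤ J') →
    ∀ (θ : ℝ) (l : ℕ), 0 < Pe F.p B → 0 ≤ θ → C * (θ + 1) ≤ l → (l : ℝ) ≤ J' * Real.log 2 →
    (∀ a ∈ s, l ≤ P₁ a) →
    (∀ (B' : F.Ω → Prop) (hB' : 0 < Pe F.p B'), Sub B' B → Pe F.p B / 2 ^ s.card ≤ Pe F.p B' →
      (Fam.sub (zf F w J' h g e) B' hB').Tm θ) →
    ∃ B' : F.Ω → Prop, Sub B' B ∧ Pe F.p B / 2 ^ s.card ≤ Pe F.p B' ∧
      ∃ G' : ι → ZzT m κ F.ζ → MvPolynomial (Option (Fin n)) ℝ,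
        ∀ a ∈ s, LbOK (zf F w J' h g e) (I a) (i a) (K + 1) (e₀ a + c₀) J' 0 (ρ' a) (P₁ a - l) B'
          (fun y => y.2.2) (fun s => s.2.1) (G' a) := by
  classical
  obtain ⟨C, c₀, hC, hd⟩ := lb_dwn m n K
  refine ⟨C, c₀, hC, ?_⟩
  intro J F w J' h κ g e hinj ι s I i e₀ ρ ρ' P P₁ V z z' G φ B hL hφ hn θ l hB hθ hCl hlJ hlP
  induction s using Finset.induction_on with
  | empty =>
    intro _
    refine ⟨B, fun _ hω => hω, ?_, fun _ _ => 0, fun a ha => absurd ha (Finset.notMem_empty a)⟩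
    rw [Finset.card_empty, pow_zero, div_one]
  | insert a s ha ih =>
    intro hTm
    have hc : (insert a s).card = s.card + 1 := Finset.card_insert_of_notMem ha
    have p2 : (0 : ℝ) < 2 ^ s.card := by positivity
    have hle : Pe F.p B / 2 ^ (insert a s).card ≤ Pe F.p B / 2 ^ s.card := by
      rw [hc]
      refine div_le_div_of_nonneg_left hB.le p2 ?_
      exact pow_le_pow_right₀ one_le_two (Nat.le_succ _)
    obtain ⟨B₁, hs1, hP1, G', hG'⟩ := ih (fun b hb => hL b (Finset.mem_insert_of_mem hb))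
      (fun b hb => hφ b (Finset.mem_insert_of_mem hb))
      (fun b hb => hn b (Finset.mem_insert_of_mem hb))
      (fun b hb => hlP b (Finset.mem_insert_of_mem hb))
      (fun B' hB' h1 h2 => hTm B' hB' h1 (hle.trans h2))
    have ha' := Finset.mem_insert_self a s
    have hB1 : 0 < Pe F.p B₁ := lt_of_lt_of_le (by positivity) hP1
    obtain ⟨n1, n2, n3, n4⟩ := hn a ha'
    obtain ⟨B₂, hs2, hP2, Ga, hGa⟩ := hd J F w J' h κ g e hinj (I a) (i a) (e₀ a) (ρ a) (ρ' a)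
      (P a) (P₁ a) (V a) (z a) (z' a) (G a) B₁ ((hL a ha').sub hs1) (φ a)
      (fun ω hω => hφ a ha' ω (hs1 ω hω)) n1 n2 n3 n4 θ l hB1 hθ hCl hlJ (hlP a ha')
      (hTm B₁ hB1 hs1 (hle.trans hP1))
    refine ⟨B₂, fun ω hω => hs1 ω (hs2 ω hω), ?_, fun b => if b = a then Ga else G' b, ?_⟩
    · rw [hc, pow_succ, ← div_div]
      linarith
    · intro b hb
      simp only
      by_cases hba : b = a
      · subst hba
        rw [if_pos rfl]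
        exact hGa
      · rw [if_neg hba]
        exact (hG' b (Finset.mem_of_mem_insert_of_ne hb hba)).sub hs2

/-- **The nested chain goes down**: labels of the coordinates `k ≥ j` over the coordinates before
`j`, for all `j`. -/
theorem nest_dwn (m n K : ℕ) : ∃ (C : ℝ) (c₀ : ℕ), 1 ≤ C ∧ ∀ (J : ℕ) (F : Fam m J) (w J' : ℕ)
    (h : w + J' ≤ J) (κ : Type) (g : F.Ω → κ) (e : Fin n → Fin m), Function.Injective e →
    ∀ (I : Fin n → Finset (Fin n)) (e₀ : ℕ) (ρ ρ' P P₁ : Fin n → ℕ) (V : Fin n → Fin n → Type)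
    (z : ∀ j k, PtT F → V j k) (z' : ∀ j k, LnT F → V j k)
    (G : ∀ j k, V j k → MvPolynomial (Option (Fin m)) ℝ) (φ : ∀ j k, κ → V j k)
    (B : F.Ω → Prop),
    (∀ j k, j ≤ k → LbOK F ((I j).image e) (e k) K e₀ J w (ρ j) (P j) B (z j k) (z' j k)
      (G j k)) →
    (∀ j k, j ≤ k → ∀ ω, B ω → z' j k (slam F w ω) = φ j k (g ω)) →
    (∀ j, ρ j + 2 ≤ w + ρ' j ∧ ρ j + 3 ≤ w + J' ∧ w + P₁ j ≤ P j ∧ P₁ j + e₀ ≤ J') →
    ∀ (θ : ℝ) (l : ℕ), 0 < Pe F.p B → 0 ≤ θ → C * (θ + 1) ≤ l → (l : ℝ) ≤ J' * Real.log 2 →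
    (∀ j, l ≤ P₁ j) →
    (∀ (B' : F.Ω → Prop) (hB' : 0 < Pe F.p B'), Sub B' B →
      Pe F.p B / 2 ^ (n * n) ≤ Pe F.p B' → (Fam.sub (zf F w J' h g e) B' hB').Tm θ) →
    ∃ B' : F.Ω → Prop, Sub B' B ∧ Pe F.p B / 2 ^ (n * n) ≤ Pe F.p B' ∧
      ∃ G' : Fin n → Fin n → ZzT m κ F.ζ → MvPolynomial (Option (Fin n)) ℝ,
        ∀ j k, j ≤ k → LbOK (zf F w J' h g e) (I j) k (K + 1) (e₀ + c₀) J' 0 (ρ' j) (P₁ j - l)
          B' (fun y => y.2.2) (fun s => s.2.1) (G' j k) := by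
  classical
  obtain ⟨C, c₀, hC, hd⟩ := chain_dwn m n K
  refine ⟨C, c₀, hC, ?_⟩
  intro J F w J' h κ g e hinj I e₀ ρ ρ' P P₁ V z z' G φ B hL hφ hn θ l hB hθ hCl hlJ hlP hTm
  obtain ⟨s, hs⟩ : ∃ s : Finset (Fin n × Fin n), s = univ.filter fun a => a.1 ≤ a.2 := ⟨_, rfl⟩
  have hmem : ∀ a : Fin n × Fin n, a ∈ s ↔ a.1 ≤ a.2 := by
    intro a
    rw [hs, Finset.mem_filter]
    exact and_iff_right (Finset.mem_univ a)
  have hcard : s.card ≤ n * n := by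
    rw [hs]
    refine (Finset.card_filter_le _ _).trans (le_of_eq ?_)
    rw [Finset.card_univ, Fintype.card_prod, Fintype.card_fin]
  have hle : Pe F.p B / 2 ^ (n * n) ≤ Pe F.p B / 2 ^ s.card :=
    div_le_div_of_nonneg_left hB.le (by positivity) (pow_le_pow_right₀ one_le_two hcard)
  obtain ⟨B', h1, h2, G', h3⟩ := hd J F w J' h κ g e hinj (Fin n × Fin n) s (fun a => I a.1)
    (fun a => a.2) (fun _ => e₀) (fun a => ρ a.1) (fun a => ρ' a.1) (fun a => P a.1)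
    (fun a => P₁ a.1) (fun a => V a.1 a.2) (fun a => z a.1 a.2) (fun a => z' a.1 a.2)
    (fun a => G a.1 a.2) (fun a => φ a.1 a.2) B (fun a ha => hL a.1 a.2 ((hmem a).1 ha))
    (fun a ha => hφ a.1 a.2 ((hmem a).1 ha)) (fun a _ => hn a.1) θ l hB hθ hCl hlJ
    (fun a _ => hlP a.1) (fun B' hB' g1 g2 => hTm B' hB' g1 (hle.trans g2))
  exact ⟨B', h1, hle.trans h2, fun j k => G' (j, k), fun j k hjk => h3 (j, k) ((hmem _).2 hjk)⟩

end Pool.GEN
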